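import Mathlib
import Pool.Agent.X231.Gabor

set_option autoImplicit false

open Pool.Agent.X231.FrameRep Pool.Agent.X231.Gabor

namespace Pool.Agent.Results.MP_fbf723_an.NoOvercomplete

/-- `f` admits a bounded `I`-representation: some ordering of `f` indexed by `I` has a bounded
representation. -/
def AdmitsBoundedRep (I : Type) [Add I] [One I] (f : ℤ × ℤ → L2R) : Prop :=
  ∃ σ : I ≃ ℤ × ℤ, HasBoundedRep (fun k => f (σ k))

/-- A Gabor frame for `L²(ℝ)` which is not a Riesz basis (that is, an overcomplete Gabor frame)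
admits neither a bounded `ℕ`-representation nor a bounded `ℤ`-representation. -/
theorem result (g : L2R) (hg : g ≠ 0) (a b : ℝ) (_ha : 0 < a) (_hb : 0 < b)
    (hframe : IsFrame (gabor g a b)) (hover : ¬ IsRieszBasis (gabor g a b)) :
    ¬ AdmitsBoundedRep ℕ (gabor g a b) ∧ ¬ AdmitsBoundedRep ℤ (gabor g a b) := by
  constructor
  · rintro ⟨σ, h⟩
    exact hover (main_nat hframe (gabor_ne g hg a b) (gabor_cov g a b) σ h)
  · rintro ⟨σ, h⟩
    exact hover (main_int hframe (gabor_ne g hg a b) (gabor_cov g a b) σ h)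

end Pool.Agent.Results.MP_fbf723_an.NoOvercomplete
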